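import Pool.Agent.H30.Plas

set_option autoImplicit false

namespace Pool.Agent.Results.MP_f81d0d_gt.Plastic

open Set

/-- The `ℓ₁` distance on the plane. -/
def d1 (u v : ℝ × ℝ) : ℝ := |u.1 - v.1| + |u.2 - v.2|

theorem result : ∃ G : AddSubgroup (ℝ × ℝ), Dense (G : Set (ℝ × ℝ)) ∧ ∀ f : G → G, Function.Bijective f →
    (∀ u v : G, d1 (f u) (f v) ≤ d1 u v) → ∀ u v : G, d1 (f u) (f v) = d1 u v := by
  classical
  obtain ⟨G, g1, g2⟩ := H30.Plas.main
  refine ⟨G, g1, fun f f1 f2 u v => (f2 u v).antisymm ?_⟩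
  let f' : ℝ × ℝ → ℝ × ℝ := fun x => if h : x ∈ G then f ⟨x, h⟩ else 0
  have L : ∀ x ∈ G, ∀ y ∈ G, d1 (f' x) (f' y) ≤ 2 * dist x y := fun x hx y hy => by
    simp only [f', dif_pos hx, dif_pos hy]
    refine (f2 _ _).trans ?_
    have e1 : |x.1 - y.1| ≤ dist x y := le_max_left _ _
    have e2 : |x.2 - y.2| ≤ dist x y := le_max_right _ _
    simp only [d1]; linarith
  obtain ⟨a, a1, a2⟩ := (LipschitzOnWith.of_dist_le_mul (K := 2) (s := G) (f := fun x => (f' x).1) fun x hx y hy =>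
    (le_add_of_nonneg_right (abs_nonneg _)).trans (L x hx y hy)).extend_real
  obtain ⟨b, b1, b2⟩ := (LipschitzOnWith.of_dist_le_mul (K := 2) (s := G) (f := fun x => (f' x).2) fun x hx y hy =>
    (le_add_of_nonneg_left (abs_nonneg _)).trans (L x hx y hy)).extend_real
  have e : ∀ u : G, (a u, b u) = (f u : ℝ × ℝ) := fun u => by
    rw [← a2 u.2, ← b2 u.2]; simp [f']
  obtain ⟨n, g, h⟩ := g2 (fun x => (a x, b x)) (a1.continuous.prodMk b1.continuous) fun x hx =>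
    mem_of_eq_of_mem (e ⟨x, hx⟩) (f ⟨x, hx⟩).2
  have e' : ∀ u : G, (f u : ℝ × ℝ) = n • (u : ℝ × ℝ) + g := fun u => (e u).symm.trans (h u)
  rcases eq_or_ne n 0 with rfl | n0
  · rw [f1.1 (Subtype.ext (by simp [e']) : f u = f v)]; simp [d1]
  have n1 : (1 : ℝ) ≤ |(n : ℝ)| := by exact_mod_cast Int.one_le_abs n0
  simp only [d1, e', Prod.fst_add, Prod.snd_add, ← Int.cast_smul_eq_zsmul ℝ, Prod.smul_fst, Prod.smul_snd, smul_eq_mul,
    add_sub_add_right_eq_sub, ← mul_sub, abs_mul]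
  exact add_le_add (le_mul_of_one_le_left (abs_nonneg _) n1) (le_mul_of_one_le_left (abs_nonneg _) n1)

end Pool.Agent.Results.MP_f81d0d_gt.Plastic
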